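import Mathlib

/-!
# Flexibility of infinite ternary square-free words: definitions

Infinite words over three letters are functions `x : ℕ → Fin 3`; the letter `u[i]` of the problem is
`x (i - 1)`.
-/

set_option autoImplicit false

namespace Pool.Agent.R123.Flex

open Filter

/-- the infinite word `x` has no square: no two adjacent equal blocks of length `p ≥ 1` -/
def SquareFree (x : ℕ → Fin 3) : Prop :=
  ∀ i p, 0 < p → ∃ j, j < p ∧ x (i + j) ≠ x (i + p + j)

/-- `P` is a wildcard set for `x`: after the letters at the places of `P` are replaced by wildcards,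
no two adjacent blocks of the same length `m ≥ 2` are compatible, that is, in any two such blocks
there are corresponding places outside `P` with different letters. -/
def WildcardSet (x : ℕ → Fin 3) (P : Set ℕ) : Prop :=
  ∀ i m, 2 ≤ m → ∃ j, j < m ∧ i + j ∉ P ∧ i + m + j ∉ P ∧ x (i + j) ≠ x (i + m + j)

/-- the upper density `limsup |P ∩ {0, …, n - 1}| / n` -/
noncomputable def upperDensity (P : Set ℕ) : ℝ :=
  limsup (fun n : ℕ => ((P ∩ Set.Iio n).ncard : ℝ) / (n : ℝ)) atTop

/-- the flexibility: the supremum of the upper densities of the wildcard sets -/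
noncomputable def flex (x : ℕ → Fin 3) : ℝ :=
  sSup {d : ℝ | ∃ P : Set ℕ, WildcardSet x P ∧ d = upperDensity P}

/-- the word `φ^k(a)` -/
def iter {A : Type} (φ : A → List A) (a : A) : ℕ → List A
  | 0 => [a]
  | k + 1 => (iter φ a k).flatMap φ

/-- `y = φ^ω(a)`: the morphism `φ` is prolongable on the letter `a` (so `φ(a)` begins with `a` and the
lengths of `φ^k(a)` are unbounded), and every `φ^k(a)` is a beginning of the infinite word `y`. -/
def IsFixedPoint {A : Type} (φ : A → List A) (a : A) (y : ℕ → A) : Prop :=
  (∃ t, φ a = a :: t) ∧ (∀ n, ∃ k, n ≤ (iter φ a k).length) ∧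
    ∀ k, iter φ a k = (List.range (iter φ a k).length).map y

/-- purely morphic words over three letters -/
def PurelyMorphic (x : ℕ → Fin 3) : Prop :=
  ∃ (φ : Fin 3 → List (Fin 3)) (a : Fin 3), IsFixedPoint φ a x

/-- morphic words over three letters: codings of fixed points of morphisms on finite alphabets -/
def Morphic (x : ℕ → Fin 3) : Prop :=
  ∃ (A : Type) (_ : Finite A) (φ : A → List A) (a : A) (y : ℕ → A) (τ : A → Fin 3),
    IsFixedPoint φ a y ∧ ∀ n, x n = τ (y n)

theorem PurelyMorphic.morphic {x : ℕ → Fin 3} (h : PurelyMorphic x) : Morphic x := by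
  obtain ⟨φ, a, h⟩ := h
  exact ⟨Fin 3, inferInstance, φ, a, x, id, h, fun n => rfl⟩

end Pool.Agent.R123.Flex
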