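import Pool.Agent.R123.Flex.Defs

/-!
# A purely morphic square-free word with flexibility at least `3 / 16`

The word `x` is the fixed point of a `96`-uniform morphism; the places `0`, `2` and `9` modulo `16`
are wildcards.
-/

set_option autoImplicit false

namespace Pool.Agent.R123.Flex

open Filter

/-- the places of the letter `1` in the image of the letter `a`, as bits -/
def bA (a : Fin 3) : ℕ := match a with
  | 0 => 12713749041708392143888401570
  | 1 => 13086944469807075167839012002
  | 2 => 12713756375993521014720513186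

/-- the places of the letter `2` in the image of the letter `a`, as bits -/
def bB (a : Fin 3) : ℕ := match a with
  | 0 => 45380857107619087397160259860
  | 1 => 44900197397413408543893393684
  | 2 => 45380851413108770949970563348

/-- the letter coded by two bits -/
def dec (s t : Bool) : Fin 3 := if t then 2 else if s then 1 else 0

/-- letter number `r` of the image of the letter `a` -/
def U (a : Fin 3) (r : ℕ) : Fin 3 := dec ((bA a).testBit r) ((bB a).testBit r)

/-- the places `n < 480` which are not wildcards, as bits -/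
def bN : ℕ := 3097121343472116928358414414994920071216332555730389780827964708948232543138529352086397531227315495244825320937691551192740314072113614618820090

/-- the wildcards -/
def holes : Set ℕ := {n | n % 16 = 0 ∨ n % 16 = 2 ∨ n % 16 = 9}

instance (n : ℕ) : Decidable (n ∈ holes) := by
  unfold holes
  exact inferInstanceAs (Decidable (n % 16 = 0 ∨ n % 16 = 2 ∨ n % 16 = 9))

/-- the fixed point of the morphism `a ↦ U a 0 … U a 95` -/
def x : ℕ → Fin 3
  | 0 => 0
  | n + 1 => U (x ((n + 1) / 96)) ((n + 1) % 96)
decreasing_by omega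

theorem U00 : U 0 0 = 0 := by decide +kernel

theorem x_eq (n : ℕ) : x n = U (x (n / 96)) (n % 96) := by
  cases n with
  | zero => simp [x, U00]
  | succ n => rw [x]

theorem x_block (q r : ℕ) (hr : r < 96) : x (96 * q + r) = U (x q) r := by
  rw [x_eq, show (96 * q + r) / 96 = q by omega, show (96 * q + r) % 96 = r by omega]

/-! ## Finite checks -/

/-- two blocks: the first one has 96 places -/
def cat (u v : ℕ) : ℕ := u ||| (v <<< 96)

theorem cat_testBit (u v m : ℕ) (hu : u < 2 ^ 96) :
    (cat u v).testBit m = if m < 96 then u.testBit m else v.testBit (m - 96) := by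
  unfold cat
  rw [Nat.testBit_or, Nat.testBit_shiftLeft]
  split_ifs with h
  · simp [show ¬ 96 ≤ m by omega]
  · have h2 : u.testBit m = false := by
      apply Nat.testBit_lt_two_pow
      exact lt_of_lt_of_le hu (Nat.pow_le_pow_right (by norm_num) (by omega))
    simp [h2, show 96 ≤ m by omega]

/-- the bits of five blocks -/
def five (f : Fin 3 → ℕ) (a b c d e : Fin 3) : ℕ :=
  cat (f a) (cat (f b) (cat (f c) (cat (f d) (f e))))

/-- the bits of two blocks -/
def two (f : Fin 3 → ℕ) (a b : Fin 3) : ℕ := cat (f a) (f b)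

/-- the places `j` such that `j` and `j + p` are no wildcards and carry different letters -/
def mism (A B N p : ℕ) : ℕ := ((A ^^^ (A >>> p)) ||| (B ^^^ (B >>> p))) &&& (N &&& (N >>> p))

/-- bit `i` of `cov k D p` is set only if one of the bits `i, …, i + p - 1` of `D` is set -/
def cov : ℕ → ℕ → ℕ → ℕ
  | 0, D, _ => D
  | k + 1, D, p => if Nat.ble p 1 then D else
      (cov k D (p - p / 2)) ||| ((cov k D (p - p / 2)) >>> (p / 2))

theorem cov_spec (k D p i : ℕ) (hp : 1 ≤ p) (h : (cov k D p).testBit i = true) :
    ∃ j, j < p ∧ D.testBit (i + j) = true := by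
  induction k generalizing p i with
  | zero => exact ⟨0, hp, h⟩
  | succ k ih =>
    rw [cov] at h
    split_ifs at h with h1
    · exact ⟨0, hp, h⟩
    · have h1' : ¬ p ≤ 1 := fun hh => h1 (Nat.ble_eq_true_of_le hh)
      rw [Nat.testBit_or, Bool.or_eq_true, Nat.testBit_shiftRight] at h
      rcases h with h | h
      · obtain ⟨j, hj, h2⟩ := ih (p - p / 2) i (by omega) h
        exact ⟨j, by omega, h2⟩
      · obtain ⟨j, hj, h2⟩ := ih (p - p / 2) (p / 2 + i) (by omega) h
        refine ⟨p / 2 + j, by omega, ?_⟩
        rwa [show i + (p / 2 + j) = p / 2 + i + j by ring]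

/-- all letters below 3 -/
def all3 (f : Fin 3 → Bool) : Bool := f 0 && f 1 && f 2

theorem all3_spec (f : Fin 3 → Bool) (h : all3 f = true) (a : Fin 3) : f a = true := by
  unfold all3 at h
  rw [Bool.and_eq_true, Bool.and_eq_true] at h
  obtain ⟨⟨h0, h1⟩, h2⟩ := h
  fin_cases a
  · exact h0
  · exact h1
  · exact h2

/-- all numbers below `n` -/
def allN : ℕ → (ℕ → Bool) → Bool
  | 0, _ => true
  | n + 1, f => f n && allN n f

theorem allN_spec (n : ℕ) (f : ℕ → Bool) (h : allN n f = true) (k : ℕ) (hk : k < n) :
    f k = true := by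
  induction n with
  | zero => omega
  | succ n ih =>
    rw [allN, Bool.and_eq_true] at h
    rcases Nat.lt_or_ge k n with h1 | h1
    · exact ih h.2 h1
    · have : k = n := by omega
      rw [this]; exact h.1

/-- the check for one square-free word of five letters: all periods `2 ≤ p < 192` -/
def checkFive (a b c d e : Fin 3) : Bool :=
  let A := five bA a b c d e
  let B := five bB a b c d e
  allN 190 (fun q => Nat.beq (cov 8 (mism A B bN (q + 2)) (q + 2) &&& (2 ^ 96 - 1)) (2 ^ 96 - 1))

/-- equality test for letters -/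
def eqb (a b : Fin 3) : Bool := Nat.beq a.val b.val

theorem eqb_iff (a b : Fin 3) : eqb a b = true ↔ a = b := by
  unfold eqb
  exact ⟨fun h => Fin.ext (Nat.eq_of_beq_eq_true h), fun h => by subst h; exact Nat.beq_refl _⟩

def checkAll : Bool :=
  all3 fun a => all3 fun b => all3 fun c => all3 fun d => all3 fun e =>
    eqb a b || eqb b c || eqb c d || eqb d e || (eqb a c && eqb b d) || (eqb b d && eqb c e) ||
      checkFive a b c d e

set_option maxRecDepth 100000 in
theorem checkAll_true : checkAll = true := by decide +kernel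

/-- no image occurs (outside the wildcards) inside the image of two different letters -/
def checkShift : Bool :=
  all3 fun a => all3 fun b => all3 fun c => eqb b c ||
    allN 95 fun q =>
      !(Nat.beq ((((bA a) ^^^ ((two bA b c) >>> (q + 1))) ||| ((bB a) ^^^ ((two bB b c) >>> (q + 1))))
        &&& ((bN &&& (bN >>> (q + 1))) &&& (2 ^ 96 - 1))) 0)

set_option maxRecDepth 100000 in
theorem checkShift_true : checkShift = true := by decide +kernel

/-- the places where the images of `a` and `b` differ -/
def dif (a b : Fin 3) : ℕ := (((bA a) ^^^ (bA b)) ||| ((bB a) ^^^ (bB b))) &&& (bN &&& (2 ^ 96 - 1))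

/-- if two images agree after the place `s` and two images agree before the place `s` -/
def checkCut : Bool :=
  all3 fun a => all3 fun b => all3 fun c => eqb a b || eqb b c ||
    allN 96 fun s => !(Nat.beq ((dif a b) >>> s) 0 && Nat.beq ((dif b c) % 2 ^ s) 0)

set_option maxRecDepth 100000 in
theorem checkCut_true : checkCut = true := by decide +kernel

/-- the bits are bits of words, the wildcards are the wildcards -/
def checkBits : Bool :=
  (all3 fun a => (Nat.blt (bA a) (2 ^ 96)) && (Nat.blt (bB a) (2 ^ 96)) &&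
    (Nat.beq (bA a &&& bB a) 0)) &&
  allN 480 fun n => (bN.testBit n).not || !(decide (n ∈ holes))

set_option maxRecDepth 100000 in
theorem checkBits_true : checkBits = true := by decide +kernel

/-- adjacent letters and squares of period two in the image of two letters -/
def checkSmall : Bool :=
  all3 fun a => all3 fun b =>
    let A := two bA a b
    let B := two bB a b
    Nat.beq (((A ^^^ (A >>> 1)) ||| (B ^^^ (B >>> 1))) &&& (2 ^ 96 - 1)) (2 ^ 96 - 1) &&
    Nat.beq ((((A ^^^ (A >>> 2)) ||| (B ^^^ (B >>> 2))) |||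
      (((A ^^^ (A >>> 2)) ||| (B ^^^ (B >>> 2))) >>> 1)) &&& (2 ^ 96 - 1)) (2 ^ 96 - 1)

set_option maxRecDepth 100000 in
theorem checkSmall_true : checkSmall = true := by decide +kernel

theorem bits_spec (a : Fin 3) : bA a < 2 ^ 96 ∧ bB a < 2 ^ 96 ∧ bA a &&& bB a = 0 := by
  have h := checkBits_true
  unfold checkBits at h
  rw [Bool.and_eq_true] at h
  have h1 := all3_spec _ h.1 a
  simp only [Bool.and_eq_true, Nat.blt_eq] at h1
  exact ⟨h1.1.1, h1.1.2, Nat.eq_of_beq_eq_true h1.2⟩

theorem bN_spec (n : ℕ) (hn : n < 480) (h : bN.testBit n = true) : n ∉ holes := by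
  have h' := checkBits_true
  unfold checkBits at h'
  rw [Bool.and_eq_true] at h'
  have h1 := allN_spec _ _ h'.2 n hn
  rw [h] at h1
  simpa using h1

/-- the letters of `x` from the place `n` on are given by the bits of `A` and `B` -/
def Rep (A B n L : ℕ) : Prop :=
  ∀ m, m < L → x (n + m) = dec (A.testBit m) (B.testBit m) ∧
    ¬ (A.testBit m = true ∧ B.testBit m = true)

theorem rep_one (q : ℕ) : Rep (bA (x q)) (bB (x q)) (96 * q) 96 := by
  intro m hm
  refine ⟨x_block q m hm, ?_⟩
  rintro ⟨h1, h2⟩
  have h3 := (bits_spec (x q)).2.2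
  have h4 : (bA (x q) &&& bB (x q)).testBit m = true := by
    rw [Nat.testBit_and, h1, h2]; rfl
  rw [h3] at h4
  simp at h4

theorem rep_cat {A B A' B' n L : ℕ} (hA : A < 2 ^ 96) (hB : B < 2 ^ 96) (h : Rep A B n 96)
    (h' : Rep A' B' (n + 96) L) : Rep (cat A A') (cat B B') n (96 + L) := by
  intro m hm
  rw [cat_testBit _ _ _ hA, cat_testBit _ _ _ hB]
  split_ifs with h1
  · exact h m h1
  · have := h' (m - 96) (by omega)
    rwa [show n + 96 + (m - 96) = n + m by omega] at this

theorem rep_two (q : ℕ) :
    Rep (two bA (x q) (x (q + 1))) (two bB (x q) (x (q + 1))) (96 * q) 192 := by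
  unfold two
  exact rep_cat (bits_spec _).1 (bits_spec _).2.1 (rep_one q) (rep_one (q + 1))

theorem rep_five (q : ℕ) :
    Rep (five bA (x q) (x (q + 1)) (x (q + 2)) (x (q + 3)) (x (q + 4)))
      (five bB (x q) (x (q + 1)) (x (q + 2)) (x (q + 3)) (x (q + 4))) (96 * q) 480 := by
  unfold five
  exact rep_cat (bits_spec _).1 (bits_spec _).2.1 (rep_one q)
    (rep_cat (bits_spec _).1 (bits_spec _).2.1 (rep_one (q + 1))
    (rep_cat (bits_spec _).1 (bits_spec _).2.1 (rep_one (q + 2))
    (rep_cat (bits_spec _).1 (bits_spec _).2.1 (rep_one (q + 3)) (rep_one (q + 4)))))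

theorem dec_ne {s t s' t' : Bool} (h1 : ¬ (s = true ∧ t = true)) (h2 : ¬ (s' = true ∧ t' = true))
    (h : (xor s s' || xor t t') = true) : dec s t ≠ dec s' t' := by
  revert h1 h2 h
  cases s <;> cases t <;> cases s' <;> cases t' <;> decide

theorem ne_of_rep {A B A' B' n n' L L' m m' : ℕ} (h : Rep A B n L) (h' : Rep A' B' n' L')
    (hm : m < L) (hm' : m' < L')
    (hx : (xor (A.testBit m) (A'.testBit m') || xor (B.testBit m) (B'.testBit m')) = true) :
    x (n + m) ≠ x (n' + m') := by
  rw [(h m hm).1, (h' m' hm').1]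
  exact dec_ne (h m hm).2 (h' m' hm').2 hx

theorem bit_of_mask {D i : ℕ} (h : Nat.beq (D &&& (2 ^ 96 - 1)) (2 ^ 96 - 1) = true)
    (hi : i < 96) : D.testBit i = true := by
  have h1 := Nat.eq_of_beq_eq_true h
  have h2 : (D &&& (2 ^ 96 - 1)).testBit i = (2 ^ 96 - 1 : ℕ).testBit i := by rw [h1]
  rw [Nat.testBit_and, Nat.testBit_two_pow_sub_one] at h2
  simp only [hi, decide_true, Bool.and_true] at h2
  exact h2

theorem small_spec (n : ℕ) : x n ≠ x (n + 1) ∧ (x n ≠ x (n + 2) ∨ x (n + 1) ≠ x (n + 3)) := by
  obtain ⟨q, r, hr, rfl⟩ : ∃ q r, r < 96 ∧ n = 96 * q + r :=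
    ⟨n / 96, n % 96, Nat.mod_lt _ (by norm_num), by omega⟩
  have hc := all3_spec _ (all3_spec _ checkSmall_true (x q)) (x (q + 1))
  simp only [Bool.and_eq_true] at hc
  have h1 := bit_of_mask hc.1 hr
  have h2 := bit_of_mask hc.2 hr
  have hR := rep_two q
  rw [Nat.testBit_or, Nat.testBit_xor, Nat.testBit_xor, Nat.testBit_shiftRight,
    Nat.testBit_shiftRight] at h1
  refine ⟨?_, ?_⟩
  · rw [show 96 * q + r + 1 = 96 * q + (1 + r) by ring]
    exact ne_of_rep hR hR (by omega) (by omega) h1
  · rw [Nat.testBit_or, Bool.or_eq_true] at h2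
    rcases h2 with h2 | h2
    · left
      rw [Nat.testBit_or, Nat.testBit_xor, Nat.testBit_xor, Nat.testBit_shiftRight,
        Nat.testBit_shiftRight] at h2
      rw [show 96 * q + r + 2 = 96 * q + (2 + r) by ring]
      exact ne_of_rep hR hR (by omega) (by omega) h2
    · right
      rw [Nat.testBit_shiftRight, Nat.testBit_or, Nat.testBit_xor, Nat.testBit_xor,
        Nat.testBit_shiftRight, Nat.testBit_shiftRight] at h2
      rw [show 96 * q + r + 1 = 96 * q + (1 + r) by ring,
        show 96 * q + r + 3 = 96 * q + (2 + (1 + r)) by ring]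
      exact ne_of_rep hR hR (by omega) (by omega) h2

theorem adj (n : ℕ) : x n ≠ x (n + 1) := (small_spec n).1

theorem holes_add (n k : ℕ) : 16 * k + n ∈ holes ↔ n ∈ holes := by
  unfold holes
  simp only [Set.mem_ofPred_eq]
  rw [show (16 * k + n) % 16 = n % 16 by omega]

theorem holes_add96 (n k : ℕ) : 96 * k + n ∈ holes ↔ n ∈ holes := by
  rw [show 96 * k + n = 16 * (6 * k) + n by ring]
  exact holes_add n _

/-- periods below 192 -/
theorem short (p i : ℕ) (hp : 2 ≤ p) (hp' : p < 192) :
    ∃ j, j < p ∧ i + j ∉ holes ∧ i + p + j ∉ holes ∧ x (i + j) ≠ x (i + p + j) := by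
  obtain ⟨q, r, hr, rfl⟩ : ∃ q r, r < 96 ∧ i = 96 * q + r :=
    ⟨i / 96, i % 96, Nat.mod_lt _ (by norm_num), by omega⟩
  have hc := all3_spec _ (all3_spec _ (all3_spec _ (all3_spec _ (all3_spec _ checkAll_true (x q))
    (x (q + 1))) (x (q + 2))) (x (q + 3))) (x (q + 4))
  simp only [Bool.or_eq_true, Bool.and_eq_true, eqb_iff] at hc
  rcases hc with (((((hc | hc) | hc) | hc) | hc) | hc) | hc
  · exact absurd hc (adj q)
  · exact absurd hc (adj (q + 1))
  · exact absurd hc (adj (q + 2))
  · exact absurd hc (adj (q + 3))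
  · exact absurd hc (by have := (small_spec q).2; tauto)
  · exact absurd hc (by have := (small_spec (q + 1)).2; tauto)
  · unfold checkFive at hc
    have h1 := allN_spec _ _ hc (p - 2) (by omega)
    rw [show p - 2 + 2 = p by omega] at h1
    have h2 := bit_of_mask h1 hr
    obtain ⟨j, hj, h3⟩ := cov_spec _ _ _ _ (by omega) h2
    unfold mism at h3
    rw [Nat.testBit_and, Nat.testBit_and, Nat.testBit_or, Nat.testBit_xor, Nat.testBit_xor,
      Nat.testBit_shiftRight, Nat.testBit_shiftRight, Nat.testBit_shiftRight,
      Bool.and_eq_true, Bool.and_eq_true] at h3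
    obtain ⟨h3, h4, h5⟩ := h3
    have hR := rep_five q
    refine ⟨j, hj, ?_, ?_, ?_⟩
    · rw [show 96 * q + r + j = 96 * q + (r + j) by ring, holes_add96]
      exact bN_spec _ (by omega) h4
    · rw [show 96 * q + r + p + j = 96 * q + (p + (r + j)) by ring, holes_add96]
      exact bN_spec _ (by omega) h5
    · rw [show 96 * q + r + j = 96 * q + (r + j) by ring,
        show 96 * q + r + p + j = 96 * q + (p + (r + j)) by ring]
      exact ne_of_rep hR hR (by omega) (by omega) h3

/-- a block cannot agree with a shifted block -/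
theorem desync (q q' s : ℕ) (hs : 0 < s) (hs' : s < 96) :
    ∃ r, r < 96 ∧ r ∉ holes ∧ r + s ∉ holes ∧ x (96 * q + r) ≠ x (96 * q' + (r + s)) := by
  have hc := all3_spec _ (all3_spec _ (all3_spec _ checkShift_true (x q)) (x q')) (x (q' + 1))
  simp only [Bool.or_eq_true, eqb_iff] at hc
  rcases hc with hc | hc
  · exact absurd hc (adj q')
  · have h1 := allN_spec _ _ hc (s - 1) (by omega)
    rw [show s - 1 + 1 = s by omega] at h1
    have h2 : (((bA (x q)) ^^^ ((two bA (x q') (x (q' + 1))) >>> s)) |||
        ((bB (x q)) ^^^ ((two bB (x q') (x (q' + 1))) >>> s)))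
        &&& ((bN &&& (bN >>> s)) &&& (2 ^ 96 - 1)) ≠ 0 := by
      intro h0
      rw [h0] at h1
      exact absurd h1 (by decide)
    obtain ⟨r, h3⟩ := Nat.exists_testBit_of_ne_zero h2
    rw [Nat.testBit_and, Nat.testBit_and, Nat.testBit_and, Nat.testBit_or, Nat.testBit_xor,
      Nat.testBit_xor, Nat.testBit_shiftRight, Nat.testBit_shiftRight, Nat.testBit_shiftRight,
      Nat.testBit_two_pow_sub_one,
      Bool.and_eq_true, Bool.and_eq_true, Bool.and_eq_true, decide_eq_true_eq] at h3
    obtain ⟨h3, ⟨h4, h5⟩, h6⟩ := h3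
    refine ⟨r, h6, bN_spec _ (by omega) h4, ?_, ?_⟩
    · rw [add_comm]; exact bN_spec _ (by omega) h5
    · rw [add_comm r s]
      exact ne_of_rep (rep_one q) (rep_two q') h6 (by omega) h3

theorem dif_spec {q q' r : ℕ} (h : (dif (x q) (x q')).testBit r = true) :
    r < 96 ∧ r ∉ holes ∧ x (96 * q + r) ≠ x (96 * q' + r) := by
  unfold dif at h
  rw [Nat.testBit_and, Nat.testBit_and, Nat.testBit_or, Nat.testBit_xor,
      Nat.testBit_xor, Nat.testBit_two_pow_sub_one,
      Bool.and_eq_true, Bool.and_eq_true, decide_eq_true_eq] at h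
  obtain ⟨h3, h4, h6⟩ := h
  exact ⟨h6, bN_spec _ (by omega) h4, ne_of_rep (rep_one q) (rep_one q') h6 h6 h3⟩

/-- if blocks agree after the place `s` and blocks agree before the place `s` -/
theorem cut (q q' q'' s : ℕ) (hs : s < 96)
    (h1 : ∀ r, s ≤ r → r < 96 → r ∉ holes → x (96 * q + r) = x (96 * q' + r))
    (h2 : ∀ r, r < s → r ∉ holes → x (96 * q' + r) = x (96 * q'' + r)) :
    x q = x q' ∨ x q' = x q'' := by
  have hc := all3_spec _ (all3_spec _ (all3_spec _ checkCut_true (x q)) (x q')) (x q'')
  simp only [Bool.or_eq_true, eqb_iff] at hc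
  rcases hc with hc | hc
  · exact hc
  · exfalso
    have h3 := allN_spec _ _ hc s hs
    have h4 : dif (x q) (x q') >>> s = 0 := by
      by_contra hne
      obtain ⟨r, hr⟩ := Nat.exists_testBit_of_ne_zero hne
      rw [Nat.testBit_shiftRight] at hr
      obtain ⟨h5, h6, h7⟩ := dif_spec hr
      exact h7 (h1 (s + r) (by omega) h5 h6)
    have h5 : dif (x q') (x q'') % 2 ^ s = 0 := by
      by_contra hne
      obtain ⟨r, hr⟩ := Nat.exists_testBit_of_ne_zero hne
      rw [Nat.testBit_mod_two_pow, Bool.and_eq_true, decide_eq_true_eq] at hr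
      obtain ⟨h5, h6, h7⟩ := dif_spec hr.2
      exact h7 (h2 r hr.1 h6)
    rw [h4, h5] at h3
    exact absurd h3 (by decide)

/-- `holes` is a wildcard set for `x` -/
theorem wild : WildcardSet x holes := by
  intro i p
  induction p using Nat.strong_induction_on generalizing i with
  | _ p ih =>
  intro hp
  rcases Nat.lt_or_ge p 192 with hlt | hge
  · exact short p i hp hlt
  rcases Nat.eq_zero_or_pos (p % 96) with h0 | h0
  · obtain ⟨t, rfl⟩ : ∃ t, p = 96 * t := ⟨p / 96, by omega⟩
    obtain ⟨q, s, hs, rfl⟩ : ∃ q r, r < 96 ∧ i = 96 * q + r :=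
      ⟨i / 96, i % 96, Nat.mod_lt _ (by norm_num), by omega⟩
    have ht : 2 ≤ t := by omega
    by_contra hcon
    push Not at hcon
    -- all non-wildcards agree
    have hag : ∀ j, j < 96 * t → 96 * q + s + j ∉ holes →
        x (96 * q + s + j) = x (96 * q + s + 96 * t + j) := by
      intro j hj hh
      refine hcon j hj hh ?_
      rw [show 96 * q + s + 96 * t + j = 96 * t + (96 * q + s + j) by ring, holes_add96]
      exact hh
    -- full blocks
    have hfull : ∀ k, 1 ≤ k → k ≤ t - 1 → x (q + k) = x (q + k + t) := by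
      intro k hk1 hk2
      have hcc := cut (q + k) (q + k + t) (q + k + t + 1) 0 (by norm_num) ?_ (by intro r hr; omega)
      · rcases hcc with hcc | hcc
        · exact hcc
        · exact absurd hcc (adj _)
      · intro r _ hr hh
        have h1 := hag (96 * k - s + r) (by omega) (by
          rw [show 96 * q + s + (96 * k - s + r) = 96 * (q + k) + r by omega, holes_add96]
          exact hh)
        rwa [show 96 * q + s + (96 * k - s + r) = 96 * (q + k) + r by omega,
          show 96 * q + s + 96 * t + (96 * k - s + r) = 96 * (q + k + t) + r by omega] at h1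
    have hcut := cut q (q + t) (q + t + t) s hs ?_ ?_
    · rcases hcut with hcut | hcut
      · obtain ⟨j, hj, -, -, hne⟩ := ih t (by omega) q ht
        rcases Nat.eq_zero_or_pos j with rfl | hj0
        · exact hne (by simpa using hcut)
        · apply hne
          have := hfull j hj0 (by omega)
          rwa [show q + t + j = q + j + t by ring]
      · obtain ⟨j, hj, -, -, hne⟩ := ih t (by omega) (q + 1) ht
        apply hne
        rcases Nat.lt_or_ge (j + 1) t with h1 | h1
        · have := hfull (j + 1) (by omega) (by omega)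
          rwa [show q + 1 + j = q + (j + 1) by ring, show q + 1 + t + j = q + (j + 1) + t by ring]
        · have hjt : j + 1 = t := by omega
          rw [show q + 1 + j = q + t by omega, show q + 1 + t + j = q + t + t by omega]
          exact hcut
    · intro r hr1 hr2 hh
      have h1 := hag (r - s) (by omega) (by
        rw [show 96 * q + s + (r - s) = 96 * q + r by omega, holes_add96]
        exact hh)
      rwa [show 96 * q + s + (r - s) = 96 * q + r by omega,
        show 96 * q + s + 96 * t + (r - s) = 96 * (q + t) + r by omega] at h1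
    · intro r hr hh
      have h1 := hag (96 * t + r - s) (by omega) (by
        rw [show 96 * q + s + (96 * t + r - s) = 96 * (q + t) + r by omega, holes_add96]
        exact hh)
      rwa [show 96 * q + s + (96 * t + r - s) = 96 * (q + t) + r by omega,
        show 96 * q + s + 96 * t + (96 * t + r - s) = 96 * (q + t + t) + r by omega] at h1
  · obtain ⟨r, hr, h1, h2, h3⟩ := desync (i / 96 + 1) (i / 96 + 1 + p / 96) (p % 96) h0
      (Nat.mod_lt _ (by norm_num))
    refine ⟨96 * (i / 96 + 1) + r - i, by omega, ?_, ?_, ?_⟩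
    · rw [show i + (96 * (i / 96 + 1) + r - i) = 96 * (i / 96 + 1) + r by omega, holes_add96]
      exact h1
    · rw [show i + p + (96 * (i / 96 + 1) + r - i) = 96 * (i / 96 + 1 + p / 96) + (r + p % 96) by
        omega, holes_add96]
      exact h2
    · rw [show i + (96 * (i / 96 + 1) + r - i) = 96 * (i / 96 + 1) + r by omega,
        show i + p + (96 * (i / 96 + 1) + r - i) = 96 * (i / 96 + 1 + p / 96) + (r + p % 96) by
        omega]
      exact h3

theorem squareFree_x : SquareFree x := by
  intro i p hp
  rcases Nat.lt_or_ge p 2 with h | h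
  · have : p = 1 := by omega
    subst this
    exact ⟨0, by norm_num, by simpa using adj i⟩
  · obtain ⟨j, hj, -, -, h1⟩ := wild i p h
    exact ⟨j, hj, h1⟩

/-! ## `x` is purely morphic -/

/-- the morphism -/
def phi (a : Fin 3) : List (Fin 3) := (List.range 96).map (U a)

theorem flatMap_phi (N : ℕ) :
    ((List.range N).map x).flatMap phi = (List.range (96 * N)).map x := by
  induction N with
  | zero => simp
  | succ N ih =>
    rw [List.range_succ, List.map_append, List.flatMap_append, ih]
    rw [show 96 * (N + 1) = 96 * N + 96 by ring, List.range_add, List.map_append]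
    congr 1
    simp only [List.map_cons, List.map_nil, List.flatMap_cons, List.flatMap_nil, List.append_nil,
      phi, List.map_map]
    apply List.map_congr_left
    intro r hr
    rw [List.mem_range] at hr
    exact (x_block N r hr).symm

theorem iter_phi (k : ℕ) : iter phi 0 k = (List.range (96 ^ k)).map x := by
  induction k with
  | zero => simp [iter, x]
  | succ k ih => rw [iter, ih, flatMap_phi, pow_succ, mul_comm]

theorem purelyMorphic_x : PurelyMorphic x := by
  refine ⟨phi, 0, ?_, ?_, ?_⟩
  · refine ⟨(phi 0).tail, ?_⟩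
    unfold phi
    rw [List.range_succ_eq_map, List.map_cons, U00]
    rfl
  · intro n
    refine ⟨n, ?_⟩
    rw [iter_phi, List.length_map, List.length_range]
    exact (Nat.lt_pow_self (by norm_num)).le
  · intro k
    rw [iter_phi, List.length_map, List.length_range]

/-! ## The density of the wildcards -/

theorem count_holes (k : ℕ) : Nat.count (· ∈ holes) (16 * k) = 3 * k := by
  induction k with
  | zero => simp
  | succ k ih =>
    rw [show 16 * (k + 1) = 16 * k + 16 by ring, Nat.count_add, ih]
    have h : Nat.count (fun j => 16 * k + j ∈ holes) 16 = Nat.count (· ∈ holes) 16 := by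
      rw [Nat.count_eq_card_filter_range, Nat.count_eq_card_filter_range]
      congr 1
      ext j
      simp only [Finset.mem_filter, holes_add]
    rw [h]
    have h2 : Nat.count (· ∈ holes) 16 = 3 := by decide
    rw [h2]
    ring

theorem ncard_holes (k : ℕ) : (holes ∩ Set.Iio (16 * k)).ncard = 3 * k := by
  rw [← count_holes k, Nat.count_eq_card_filter_range, ← Set.ncard_coe_finset]
  congr 1
  ext j
  simp [and_comm]

theorem density_holes : 3 / 16 ≤ upperDensity holes := by
  unfold upperDensity
  apply le_limsup_of_frequently_le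
  · rw [frequently_atTop]
    intro N
    refine ⟨16 * (N + 1), by omega, ?_⟩
    rw [ncard_holes, le_div_iff₀ (by positivity)]
    push_cast
    linarith
  · refine isBoundedUnder_of ⟨1, fun n => ?_⟩
    rcases Nat.eq_zero_or_pos n with rfl | hn
    · simp
    · rw [div_le_one (by exact_mod_cast hn)]
      have h1 : (holes ∩ Set.Iio n).ncard ≤ (Set.Iio n).ncard :=
        Set.ncard_le_ncard Set.inter_subset_right (Set.finite_Iio n)
      have h2 : (Set.Iio n).ncard = n := by
        rw [← Finset.coe_range, Set.ncard_coe_finset, Finset.card_range]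
      rw [h2] at h1
      exact_mod_cast h1

end Pool.Agent.R123.Flex
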