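import Pool.Agent.R123.Flex.Defs

/-!
# The flexibility of every infinite ternary square-free word is at most `3 / 16`
-/

set_option autoImplicit false

namespace Pool.Agent.R123.Flex

open Filter

/-! ## A finite search -/

/-- the first `p` entries of the two lists are compatible (a flag marks a wildcard) -/
def cmpPart : ℕ → List (ℕ × Bool) → List (ℕ × Bool) → Bool
  | 0, _, _ => true
  | _ + 1, [], _ => false
  | _ + 1, _, [] => false
  | p + 1, a :: s, b :: t => (a.2 || b.2 || Nat.beq a.1 b.1) && cmpPart p s t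

/-- the first two letters are equal -/
def cmp1 : List (ℕ × Bool) → Bool
  | a :: b :: _ => Nat.beq a.1 b.1
  | _ => false

/-- the (reversed) word ends in two equal letters or in a partial square of period at least 2 -/
def bad (l : List (ℕ × Bool)) : Bool :=
  cmp1 l || (List.range (l.length / 2 - 1)).any (fun q => cmpPart (q + 2) l (l.drop (q + 2)))

/-- no extension of the reversed word `l` with the flags `hs` is good -/
def dead : List Bool → List (ℕ × Bool) → Bool
  | [], _ => false
  | h :: hs, l =>
    (bad ((0, h) :: l) || dead hs ((0, h) :: l)) && (bad ((1, h) :: l) || dead hs ((1, h) :: l)) &&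
      (bad ((2, h) :: l) || dead hs ((2, h) :: l))

/-- the flags with wildcards at the places of `S` -/
def flags (S : List ℕ) (W : ℕ) : List Bool := (List.range W).map (fun k => S.contains k)

/-- the search from the beginning `01` -/
def test (S : List ℕ) (W : ℕ) : Bool :=
  match flags S W with
  | h0 :: h1 :: hs => dead hs [(1, h1), (0, h0)]
  | _ => false

theorem cmpPart_spec (p : ℕ) (s t : List (ℕ × Bool)) (h : cmpPart p s t = true) (j : ℕ)
    (hj : j < p) : ∃ a b, s[j]? = some a ∧ t[j]? = some b ∧
      (a.2 = true ∨ b.2 = true ∨ a.1 = b.1) := by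
  induction p generalizing s t j with
  | zero => omega
  | succ p ih =>
    cases s with
    | nil => simp [cmpPart] at h
    | cons a s =>
      cases t with
      | nil => simp [cmpPart] at h
      | cons b t =>
        rw [cmpPart, Bool.and_eq_true] at h
        cases j with
        | zero =>
          refine ⟨a, b, rfl, rfl, ?_⟩
          have h1 := h.1
          rw [Bool.or_eq_true, Bool.or_eq_true] at h1
          rcases h1 with (h1 | h1) | h1
          · exact Or.inl h1
          · exact Or.inr (Or.inl h1)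
          · exact Or.inr (Or.inr (Nat.eq_of_beq_eq_true h1))
        | succ j =>
          obtain ⟨a', b', h1, h2, h3⟩ := ih s t h.2 j (by omega)
          exact ⟨a', b', by simpa using h1, by simpa using h2, h3⟩

/-- the reversed beginning of length `k` -/
def pre (y : ℕ → ℕ) (fl : ℕ → Bool) : ℕ → List (ℕ × Bool)
  | 0 => []
  | k + 1 => (y k, fl k) :: pre y fl k

theorem pre_length (y : ℕ → ℕ) (fl : ℕ → Bool) (k : ℕ) : (pre y fl k).length = k := by
  induction k with
  | zero => rfl
  | succ k ih => simp [pre, ih]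

theorem pre_get (y : ℕ → ℕ) (fl : ℕ → Bool) (k j : ℕ) (hj : j < k) :
    (pre y fl k)[j]? = some (y (k - 1 - j), fl (k - 1 - j)) := by
  induction k generalizing j with
  | zero => omega
  | succ k ih =>
    cases j with
    | zero => simp [pre]
    | succ j =>
      have := ih j (by omega)
      simp only [pre, List.getElem?_cons_succ]
      rw [this]
      have : k + 1 - 1 - (j + 1) = k - 1 - j := by omega
      rw [this]

/-- good words: adjacent letters differ and there is no partial square of period at least 2 -/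
structure Good (y : ℕ → ℕ) (fl : ℕ → Bool) : Prop where
  lt : ∀ n, y n < 3
  adj : ∀ n, y n ≠ y (n + 1)
  part : ∀ i m, 2 ≤ m → ∃ j, j < m ∧ fl (i + j) = false ∧ fl (i + m + j) = false ∧
    y (i + j) ≠ y (i + m + j)

theorem not_bad {y : ℕ → ℕ} {fl : ℕ → Bool} (h : Good y fl) (k : ℕ) : bad (pre y fl k) = false := by
  by_contra hb
  rw [Bool.not_eq_false, bad, Bool.or_eq_true] at hb
  rcases hb with hb | hb
  · match k, hb with
    | 0, hb => simp [pre, cmp1] at hb
    | 1, hb => simp [pre, cmp1] at hb
    | k + 2, hb =>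
      simp only [pre, cmp1] at hb
      exact h.adj k (Nat.eq_of_beq_eq_true hb).symm
  · rw [List.any_eq_true] at hb
    obtain ⟨q, hq, hc⟩ := hb
    rw [List.mem_range, pre_length] at hq
    obtain ⟨j, hj, h1, h2, h3⟩ := h.part (k - 2 * (q + 2)) (q + 2) (by omega)
    obtain ⟨a, b, ha, hb', hab⟩ := cmpPart_spec _ _ _ hc (q + 2 - 1 - j) (by omega)
    rw [pre_get _ _ _ _ (by omega)] at ha
    rw [List.getElem?_drop, pre_get _ _ _ _ (by omega)] at hb'
    have e1 : k - 1 - (q + 2 - 1 - j) = k - 2 * (q + 2) + (q + 2) + j := by omega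
    have e2 : k - 1 - (q + 2 + (q + 2 - 1 - j)) = k - 2 * (q + 2) + j := by omega
    rw [e1] at ha
    rw [e2] at hb'
    have ha' := (Option.some.inj ha).symm
    have hb'' := (Option.some.inj hb').symm
    subst ha'
    subst hb''
    rcases hab with h4 | h4 | h4
    · simp [h2] at h4
    · simp [h1] at h4
    · exact h3 h4.symm

theorem not_dead {y : ℕ → ℕ} {fl : ℕ → Bool} (h : Good y fl) (hs : List Bool) (k : ℕ)
    (hfl : ∀ i, i < hs.length → hs[i]? = some (fl (k + i))) : dead hs (pre y fl k) = false := by
  induction hs generalizing k with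
  | nil => rfl
  | cons h0 hs ih =>
    have e0 : h0 = fl k := by
      have := hfl 0 (by simp)
      simpa using this
    have ih' := ih (k + 1) (by
      intro i hi
      have := hfl (i + 1) (by simp; omega)
      simp only [List.getElem?_cons_succ] at this
      rw [this]
      congr 2
      omega)
    have hb := not_bad h (k + 1)
    rw [pre] at ih' hb
    rw [dead]
    subst e0
    have hy := h.lt k
    have hy3 : y k = 0 ∨ y k = 1 ∨ y k = 2 := by omega
    rcases hy3 with e | e | e
    · rw [e] at ih' hb
      simp [ih', hb]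
    · rw [e] at ih' hb
      simp [ih', hb]
    · rw [e] at ih' hb
      simp [ih', hb]

theorem flags_get (S : List ℕ) (W i : ℕ) (hi : i < W) : (flags S W)[i]? = some (S.contains i) := by
  simp [flags, hi]

/-- If the test succeeds, no good word begins with `01` and has its flags at `S`. -/
theorem test_sound (S : List ℕ) (W : ℕ) (hW : 2 ≤ W) (ht : test S W = true) {y : ℕ → ℕ}
    (h : Good y (fun k => S.contains k && decide (k < W))) (h0 : y 0 = 0) (h1 : y 1 = 1) :
    False := by
  obtain ⟨V, rfl⟩ : ∃ V, W = V + 2 := ⟨W - 2, by omega⟩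
  have e : flags S (V + 2) = S.contains 0 :: S.contains 1 ::
      (List.range V).map (fun k => S.contains (k + 2)) := by
    unfold flags
    rw [List.range_succ_eq_map, List.range_succ_eq_map]
    simp [List.map_map, Function.comp_def]
  unfold test at ht
  rw [e] at ht
  simp only at ht
  have := not_dead h ((List.range V).map (fun k => S.contains (k + 2))) 2 (by
    intro i hi
    rw [List.length_map, List.length_range] at hi
    simp only [List.getElem?_map, List.getElem?_range hi, Option.map_some, Option.some.injEq]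
    rw [Nat.add_comm 2 i, decide_eq_true (show i + 2 < V + 2 by omega), Bool.and_true])
  simp only [pre, h0, h1] at this
  have hV : (0 : ℕ) < V + 2 := by omega
  have hV1 : (1 : ℕ) < V + 2 := by omega
  simp only [hV, hV1, decide_true, Bool.and_true] at this
  rw [this] at ht
  exact Bool.false_ne_true ht

/-! ## Forbidden configurations of wildcards -/

/-- the configurations that the search excludes (with eight letters on each side) -/
def forbidden : List (List ℕ × ℕ) :=
  [([8, 9], 18), ([8, 11], 20), ([8, 13], 22), ([8, 14], 23), ([8, 16], 25),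
   ([8, 10, 12], 21), ([8, 10, 14], 23), ([8, 12, 14], 23), ([8, 12, 16], 25),
   ([8, 10, 17, 19], 28), ([8, 15, 19, 26], 35)]

theorem all_forbidden : ∀ c ∈ forbidden, test c.1 c.2 = true := by decide +kernel

/-- a permutation of the three letters, as a map on numbers -/
theorem exists_rename (a b : Fin 3) (hab : a ≠ b) :
    ∃ σ : Fin 3 → ℕ, Function.Injective σ ∧ (∀ c, σ c < 3) ∧ σ a = 0 ∧ σ b = 1 := by
  refine ⟨fun c => if c = a then 0 else if c = b then 1 else 2, ?_, ?_, ?_, ?_⟩
  · revert a b
    decide
  · intro c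
    dsimp only
    split_ifs <;> omega
  · simp
  · simp [hab.symm]

/-- A configuration excluded by the search does not occur among the wildcards of a word. -/
theorem forbid {x : ℕ → Fin 3} {P : Set ℕ} (hx : ∀ n, x n ≠ x (n + 1)) (hP : WildcardSet x P)
    (S : List ℕ) (W : ℕ) (hSW : (S, W) ∈ forbidden) (n : ℕ) (hn : 8 ≤ n)
    (hS : ∀ k ∈ S, n - 8 + k ∈ P) : False := by
  obtain ⟨σ, hσ, hσ3, h0, h1⟩ := exists_rename (x (n - 8)) (x (n - 8 + 1)) (hx (n - 8))
  have hW : 2 ≤ W := by
    have : ∀ c ∈ forbidden, 2 ≤ c.2 := by decide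
    exact this _ hSW
  refine test_sound S W hW (all_forbidden _ hSW) (y := fun k => σ (x (n - 8 + k))) ?_ h0 h1
  refine ⟨fun k => hσ3 _, fun k h => hx (n - 8 + k) (hσ h), ?_⟩
  intro i m hm
  obtain ⟨j, hj, h2, h3, h4⟩ := hP (n - 8 + i) m hm
  refine ⟨j, hj, ?_, ?_, ?_⟩
  · by_contra hcon
    simp only [Bool.not_eq_false, Bool.and_eq_true, List.contains_iff_mem] at hcon
    apply h2
    rw [Nat.add_assoc]
    exact hS _ hcon.1
  · by_contra hcon
    simp only [Bool.not_eq_false, Bool.and_eq_true, List.contains_iff_mem] at hcon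
    apply h3
    have := hS _ hcon.1
    rwa [show n - 8 + (i + m + j) = n - 8 + i + m + j by ring] at this
  · intro h
    apply h4
    have := hσ h
    rwa [show n - 8 + (i + j) = n - 8 + i + j by ring,
      show n - 8 + (i + m + j) = n - 8 + i + m + j by ring] at this

/-- the gap conditions for a set of places -/
structure Gaps (Q : Set ℕ) : Prop where
  g1 : ∀ n ∈ Q, n + 1 ∉ Q
  g3 : ∀ n ∈ Q, n + 3 ∉ Q
  g5 : ∀ n ∈ Q, n + 5 ∉ Q
  g6 : ∀ n ∈ Q, n + 6 ∉ Q
  g8 : ∀ n ∈ Q, n + 8 ∉ Q
  g22 : ∀ n ∈ Q, n + 2 ∈ Q → n + 4 ∉ Q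
  g24 : ∀ n ∈ Q, n + 2 ∈ Q → n + 6 ∉ Q
  g42 : ∀ n ∈ Q, n + 4 ∈ Q → n + 6 ∉ Q
  g44 : ∀ n ∈ Q, n + 4 ∈ Q → n + 8 ∉ Q
  g272 : ∀ n ∈ Q, n + 2 ∈ Q → n + 9 ∈ Q → n + 11 ∉ Q
  g747 : ∀ n ∈ Q, n + 7 ∈ Q → n + 11 ∈ Q → n + 18 ∉ Q

theorem gaps_of_wildcard {x : ℕ → Fin 3} {P : Set ℕ} (hx : ∀ n, x n ≠ x (n + 1))
    (hP : WildcardSet x P) : Gaps {n | 8 ≤ n ∧ n ∈ P} := by
  have key : ∀ (S : List ℕ) (W : ℕ), (S, W) ∈ forbidden → ∀ n, 8 ≤ n →
      (∀ k ∈ S, n - 8 + k ∈ P) → False := fun S W h n hn hS => forbid hx hP S W h n hn hS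
  have e : ∀ n k, 8 ≤ n → n - 8 + (8 + k) = n + k := fun n k h => by omega
  constructor
  · rintro n ⟨hn, h0⟩ ⟨_, h1⟩
    refine key [8, 9] 18 (by decide) n hn ?_
    simp only [List.mem_cons, List.not_mem_nil, or_false, forall_eq_or_imp, forall_eq]
    exact ⟨by rw [e n 0 hn]; exact h0, by rw [e n 1 hn]; exact h1⟩
  · rintro n ⟨hn, h0⟩ ⟨_, h1⟩
    refine key [8, 11] 20 (by decide) n hn ?_
    simp only [List.mem_cons, List.not_mem_nil, or_false, forall_eq_or_imp, forall_eq]
    exact ⟨by rw [e n 0 hn]; exact h0, by rw [e n 3 hn]; exact h1⟩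
  · rintro n ⟨hn, h0⟩ ⟨_, h1⟩
    refine key [8, 13] 22 (by decide) n hn ?_
    simp only [List.mem_cons, List.not_mem_nil, or_false, forall_eq_or_imp, forall_eq]
    exact ⟨by rw [e n 0 hn]; exact h0, by rw [e n 5 hn]; exact h1⟩
  · rintro n ⟨hn, h0⟩ ⟨_, h1⟩
    refine key [8, 14] 23 (by decide) n hn ?_
    simp only [List.mem_cons, List.not_mem_nil, or_false, forall_eq_or_imp, forall_eq]
    exact ⟨by rw [e n 0 hn]; exact h0, by rw [e n 6 hn]; exact h1⟩
  · rintro n ⟨hn, h0⟩ ⟨_, h1⟩
    refine key [8, 16] 25 (by decide) n hn ?_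
    simp only [List.mem_cons, List.not_mem_nil, or_false, forall_eq_or_imp, forall_eq]
    exact ⟨by rw [e n 0 hn]; exact h0, by rw [e n 8 hn]; exact h1⟩
  · rintro n ⟨hn, h0⟩ ⟨_, h1⟩ ⟨_, h2⟩
    refine key [8, 10, 12] 21 (by decide) n hn ?_
    simp only [List.mem_cons, List.not_mem_nil, or_false, forall_eq_or_imp, forall_eq]
    exact ⟨by rw [e n 0 hn]; exact h0, by rw [e n 2 hn]; exact h1, by rw [e n 4 hn]; exact h2⟩
  · rintro n ⟨hn, h0⟩ ⟨_, h1⟩ ⟨_, h2⟩
    refine key [8, 10, 14] 23 (by decide) n hn ?_
    simp only [List.mem_cons, List.not_mem_nil, or_false, forall_eq_or_imp, forall_eq]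
    exact ⟨by rw [e n 0 hn]; exact h0, by rw [e n 2 hn]; exact h1, by rw [e n 6 hn]; exact h2⟩
  · rintro n ⟨hn, h0⟩ ⟨_, h1⟩ ⟨_, h2⟩
    refine key [8, 12, 14] 23 (by decide) n hn ?_
    simp only [List.mem_cons, List.not_mem_nil, or_false, forall_eq_or_imp, forall_eq]
    exact ⟨by rw [e n 0 hn]; exact h0, by rw [e n 4 hn]; exact h1, by rw [e n 6 hn]; exact h2⟩
  · rintro n ⟨hn, h0⟩ ⟨_, h1⟩ ⟨_, h2⟩
    refine key [8, 12, 16] 25 (by decide) n hn ?_
    simp only [List.mem_cons, List.not_mem_nil, or_false, forall_eq_or_imp, forall_eq]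
    exact ⟨by rw [e n 0 hn]; exact h0, by rw [e n 4 hn]; exact h1, by rw [e n 8 hn]; exact h2⟩
  · rintro n ⟨hn, h0⟩ ⟨_, h1⟩ ⟨_, h2⟩ ⟨_, h3⟩
    refine key [8, 10, 17, 19] 28 (by decide) n hn ?_
    simp only [List.mem_cons, List.not_mem_nil, or_false, forall_eq_or_imp, forall_eq]
    exact ⟨by rw [e n 0 hn]; exact h0, by rw [e n 2 hn]; exact h1, by rw [e n 9 hn]; exact h2,
      by rw [e n 11 hn]; exact h3⟩
  · rintro n ⟨hn, h0⟩ ⟨_, h1⟩ ⟨_, h2⟩ ⟨_, h3⟩
    refine key [8, 15, 19, 26] 35 (by decide) n hn ?_
    simp only [List.mem_cons, List.not_mem_nil, or_false, forall_eq_or_imp, forall_eq]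
    exact ⟨by rw [e n 0 hn]; exact h0, by rw [e n 7 hn]; exact h1, by rw [e n 11 hn]; exact h2,
      by rw [e n 18 hn]; exact h3⟩

/-! ## Counting -/

/-- the weight of a list of places, compared with `N` -/
def wt (N : ℕ) : List ℕ → ℤ
  | [] => 0
  | a :: l => 3 * ((N : ℤ) - a) - 16 * (l.length : ℤ)

theorem wt_cons (N a b : ℕ) (t : List ℕ) :
    wt N (a :: b :: t) = 3 * ((b : ℤ) - a) - 16 + wt N (b :: t) := by
  simp only [wt, List.length_cons]
  push_cast
  ring

theorem wt_bound {Q : Set ℕ} (hQ : Gaps Q) (N : ℕ) (l : List ℕ) (hl : l.Pairwise (· < ·))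
    (hmem : ∀ a ∈ l, a ∈ Q ∧ a ≤ N) :
    -10 ≤ wt N l ∧ ∀ a b t, l = a :: b :: t →
      (b = a + 7 → -5 ≤ wt N l) ∧ (a + 9 ≤ b → 1 ≤ wt N l) ∧
      (b = a + 7 → (∀ c s, t = c :: s → c ≠ b + 2) → 0 ≤ wt N l) ∧
      (b = a + 4 → -9 ≤ wt N l) ∧
      (b = a + 4 → (∀ c s, t = c :: s → c ≠ b + 7) → -4 ≤ wt N l) := by
  induction l with
  | nil => exact ⟨by simp [wt], by simp⟩
  | cons a l ih =>
    cases l with
    | nil =>
      have h1 := (hmem a (by simp)).2
      refine ⟨?_, by simp⟩
      simp only [wt, List.length_nil]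
      omega
    | cons b t =>
      have ih' := ih hl.of_cons (fun c hc => hmem c (List.mem_cons_of_mem _ hc))
      obtain ⟨hA, hrest⟩ := ih'
      have haQ := (hmem a (by simp)).1
      have hbQ := (hmem b (by simp)).1
      have hbN := (hmem b (by simp)).2
      have hab : a < b := (List.pairwise_cons.1 hl).1 b (by simp)
      have hw := wt_cons N a b t
      -- the possible gaps
      have hgap : b = a + 2 ∨ b = a + 4 ∨ b = a + 7 ∨ a + 9 ≤ b := by
        have h1 := hQ.g1 a haQ
        have h3 := hQ.g3 a haQ
        have h5 := hQ.g5 a haQ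
        have h6 := hQ.g6 a haQ
        have h8 := hQ.g8 a haQ
        by_contra hcon
        have : b = a + 1 ∨ b = a + 3 ∨ b = a + 5 ∨ b = a + 6 ∨ b = a + 8 := by omega
        rcases this with h | h | h | h | h
        · exact h1 (h ▸ hbQ)
        · exact h3 (h ▸ hbQ)
        · exact h5 (h ▸ hbQ)
        · exact h6 (h ▸ hbQ)
        · exact h8 (h ▸ hbQ)
      cases t with
      | nil =>
        have hb0 : 0 ≤ wt N [b] := by
          simp only [wt, List.length_nil]
          omega
        refine ⟨by omega, ?_⟩
        intro a' b' t' he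
        simp only [List.cons.injEq] at he
        obtain ⟨rfl, rfl, rfl⟩ := he
        refine ⟨by omega, by omega, by omega, by omega, by omega⟩
      | cons c s =>
        obtain ⟨h7, h9, h70, h4, h44⟩ := hrest b c s rfl
        have hcQ := (hmem c (by simp)).1
        have hbc : b < c := (List.pairwise_cons.1 hl.of_cons).1 c (by simp)
        have hgap2 : c = b + 2 ∨ c = b + 4 ∨ c = b + 7 ∨ b + 9 ≤ c := by
          have h1 := hQ.g1 b hbQ
          have h3 := hQ.g3 b hbQ
          have h5 := hQ.g5 b hbQ
          have h6 := hQ.g6 b hbQ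
          have h8 := hQ.g8 b hbQ
          by_contra hcon
          have : c = b + 1 ∨ c = b + 3 ∨ c = b + 5 ∨ c = b + 6 ∨ c = b + 8 := by omega
          rcases this with h | h | h | h | h
          · exact h1 (h ▸ hcQ)
          · exact h3 (h ▸ hcQ)
          · exact h5 (h ▸ hcQ)
          · exact h6 (h ▸ hcQ)
          · exact h8 (h ▸ hcQ)
        -- small gaps are not adjacent
        have h22 : b = a + 2 → c ≠ b + 2 := by
          rintro rfl rfl
          exact hQ.g22 a haQ hbQ hcQ
        have h24 : b = a + 2 → c ≠ b + 4 := by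
          rintro rfl rfl
          exact hQ.g24 a haQ hbQ hcQ
        have h42 : b = a + 4 → c ≠ b + 2 := by
          rintro rfl rfl
          exact hQ.g42 a haQ hbQ hcQ
        have h44' : b = a + 4 → c ≠ b + 4 := by
          rintro rfl rfl
          exact hQ.g44 a haQ hbQ hcQ
        have h272 : b = a + 2 → c = b + 7 → ∀ d r, s = d :: r → d ≠ c + 2 := by
          rintro rfl rfl d r rfl rfl
          exact hQ.g272 a haQ hbQ hcQ (hmem _ (by simp)).1
        have h747 : b = a + 7 → c = b + 4 → ∀ d r, s = d :: r → d ≠ c + 7 := by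
          rintro rfl rfl d r rfl rfl
          exact hQ.g747 a haQ hbQ hcQ (hmem _ (by simp)).1
        have main : (b = a + 2 → -10 ≤ wt N (a :: b :: c :: s)) ∧
            (b = a + 4 → -9 ≤ wt N (a :: b :: c :: s)) ∧
            (b = a + 4 → c ≠ b + 7 → -4 ≤ wt N (a :: b :: c :: s)) ∧
            (b = a + 7 → -5 ≤ wt N (a :: b :: c :: s)) ∧
            (b = a + 7 → c ≠ b + 2 → 0 ≤ wt N (a :: b :: c :: s)) ∧
            (a + 9 ≤ b → 1 ≤ wt N (a :: b :: c :: s)) := by
          refine ⟨?_, ?_, ?_, ?_, ?_, ?_⟩
          · intro hb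
            have e1 := h22 hb
            have e2 := h24 hb
            rcases hgap2 with h | h | h | h
            · exact absurd h e1
            · exact absurd h e2
            · have := h70 h (h272 hb h)
              omega
            · have := h9 h
              omega
          · intro hb
            have e1 := h42 hb
            have e2 := h44' hb
            rcases hgap2 with h | h | h | h
            · exact absurd h e1
            · exact absurd h e2
            · have := h7 h
              omega
            · have := h9 h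
              omega
          · intro hb hc
            have e1 := h42 hb
            have e2 := h44' hb
            rcases hgap2 with h | h | h | h
            · exact absurd h e1
            · exact absurd h e2
            · exact absurd h hc
            · have := h9 h
              omega
          · intro hb
            rcases hgap2 with h | h | h | h
            · omega
            · have := h4 h
              have h2 := h44 h (h747 hb h)
              omega
            · have := h7 h
              omega
            · have := h9 h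
              omega
          · intro hb hc
            rcases hgap2 with h | h | h | h
            · exact absurd h hc
            · have h2 := h44 h (h747 hb h)
              omega
            · have := h7 h
              omega
            · have := h9 h
              omega
          · intro hb
            omega
        obtain ⟨m2, m4, m44, m7, m70, m9⟩ := main
        refine ⟨?_, ?_⟩
        · rcases hgap with h | h | h | h
          · exact m2 h
          · have := m4 h; omega
          · have := m7 h; omega
          · have := m9 h; omega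
        · intro a' b' t' he
          simp only [List.cons.injEq] at he
          obtain ⟨rfl, rfl, rfl⟩ := he
          exact ⟨m7, m9, fun h1 h2 => m70 h1 (h2 c s rfl), m4, fun h1 h2 => m44 h1 (h2 c s rfl)⟩

theorem card_bound {Q : Set ℕ} (hQ : Gaps Q) (F : Finset ℕ) (N : ℕ)
    (hF : ∀ a ∈ F, a ∈ Q ∧ a ≤ N) : 16 * F.card ≤ 3 * N + 26 := by
  have h := wt_bound hQ N (F.sort (· ≤ ·)) (F.sortedLT_sort).pairwise
    (fun a ha => hF a ((Finset.mem_sort _).1 ha))
  cases hl : F.sort (· ≤ ·) with
  | nil =>
    have := F.length_sort (· ≤ ·)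
    rw [hl] at this
    simp only [List.length_nil] at this
    omega
  | cons a l =>
    have h1 := h.1
    rw [hl] at h1
    have h2 := F.length_sort (· ≤ ·)
    rw [hl, List.length_cons] at h2
    simp only [wt] at h1
    omega

/-- the upper density of a wildcard set of a square-free word is at most `3 / 16` -/
theorem upperDensity_le {x : ℕ → Fin 3} {P : Set ℕ} (hx : SquareFree x) (hP : WildcardSet x P) :
    upperDensity P ≤ 3 / 16 := by
  classical
  have hadj : ∀ n, x n ≠ x (n + 1) := by
    intro n
    obtain ⟨j, hj, h⟩ := hx n 1 (by norm_num)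
    have : j = 0 := by omega
    subst this
    simpa using h
  have hQ := gaps_of_wildcard hadj hP
  have hcount : ∀ n : ℕ, 16 * (P ∩ Set.Iio n).ncard ≤ 3 * n + 154 := by
    intro n
    let F : Finset ℕ := (Finset.range n).filter (fun a => 8 ≤ a ∧ a ∈ P)
    have h1 : 16 * F.card ≤ 3 * n + 26 := by
      apply card_bound hQ F n
      intro a ha
      simp only [F, Finset.mem_filter, Finset.mem_range] at ha
      exact ⟨ha.2, by omega⟩
    have h2 : P ∩ Set.Iio n ⊆ ((F ∪ Finset.range 8 : Finset ℕ) : Set ℕ) := by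
      rintro a ⟨ha, hn⟩
      rw [Set.mem_Iio] at hn
      simp only [F, Finset.coe_union, Set.mem_union, Finset.mem_coe, Finset.mem_filter,
        Finset.mem_range]
      by_cases h8 : 8 ≤ a
      · exact Or.inl ⟨hn, h8, ha⟩
      · exact Or.inr (by omega)
    have h3 := Set.ncard_le_ncard h2 (Finset.finite_toSet _)
    rw [Set.ncard_coe_finset] at h3
    have h4 := Finset.card_union_le F (Finset.range 8)
    rw [Finset.card_range] at h4
    omega
  apply le_of_forall_pos_le_add
  intro ε hε
  apply limsup_le_of_le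
  · exact isCoboundedUnder_le_of_le atTop (x := 0) (fun n => by positivity)
  · obtain ⟨K, hK⟩ := exists_nat_gt (10 / ε)
    filter_upwards [eventually_ge_atTop (K + 1)] with n hn
    have hn0 : (0 : ℝ) < n := by
      have : 0 < n := by omega
      exact_mod_cast this
    rw [div_le_iff₀ hn0]
    have h1 : (16 : ℝ) * ((P ∩ Set.Iio n).ncard : ℝ) ≤ 3 * n + 154 := by
      exact_mod_cast hcount n
    have h2 : 10 < ε * n := by
      rw [div_lt_iff₀ hε] at hK
      have : (K : ℝ) ≤ n := by exact_mod_cast (by omega : K ≤ n)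
      nlinarith
    nlinarith

theorem flex_le {x : ℕ → Fin 3} (hx : SquareFree x) : flex x ≤ 3 / 16 := by
  apply Real.sSup_le
  · rintro d ⟨P, hP, rfl⟩
    exact upperDensity_le hx hP
  · norm_num

end Pool.Agent.R123.Flex
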